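import Pool.Agent.W64.DM.Stm

/-!
# Project DM (helper64): BADC, a weaker bound for the number of pairs with a small linear form
-/

set_option autoImplicit false

namespace Pool.Agent.W400.DM.Badc

open Pool.Agent.W64.DM Finset

/-- separated points in a short interval -/
lemma sep {V : Type} [DecidableEq V] (T : Finset V) (f : V → ℝ) (ρ ρ1 : ℝ) (h1 : 0 < ρ1)
    (h2 : ρ1 ≤ ρ) (hf : ∀ v ∈ T, |f v| < ρ)
    (hs : ∀ v ∈ T, ∀ v' ∈ T, v ≠ v' → ρ1 ≤ |f v - f v'|) :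
    (T.card : ℝ) ≤ 4 * (ρ / ρ1) := by
  have hx : (1 : ℝ) ≤ ρ / ρ1 := by rwa [le_div_iff₀ h1, one_mul]
  set x : ℝ := ρ / ρ1 with hxdef
  have hcard : T.card ≤ (Finset.Icc (⌊-x⌋) (⌊x⌋)).card := by
    refine Finset.card_le_card_of_injOn (fun v => ⌊f v / ρ1⌋) ?_ ?_
    · intro v hv
      have hv' : v ∈ T := by simpa using hv
      have hb := abs_lt.1 (hf v hv')
      simp only [Finset.coe_Icc, Set.mem_Icc]
      constructor
      · apply Int.floor_le_floor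
        rw [hxdef, ← neg_div]
        exact div_le_div_of_nonneg_right hb.1.le h1.le
      · apply Int.floor_le_floor
        exact div_le_div_of_nonneg_right hb.2.le h1.le
    · intro v hv v' hv' he
      by_contra hne
      have hv1 : v ∈ T := by simpa using hv
      have hv2 : v' ∈ T := by simpa using hv'
      have h3 := hs v hv1 v' hv2 hne
      have h4 : |f v / ρ1 - f v' / ρ1| < 1 := Int.abs_sub_lt_one_of_floor_eq_floor he
      rw [← sub_div, abs_div, abs_of_pos h1, div_lt_one h1] at h4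
      linarith
  have h5 : ((Finset.Icc (⌊-x⌋) (⌊x⌋)).card : ℝ) ≤ 2 * x + 2 := by
    rw [Int.card_Icc]
    have h6 : (0 : ℤ) ≤ ⌊x⌋ + 1 - ⌊-x⌋ := by
      have h7 : (0 : ℤ) ≤ ⌊x⌋ := Int.floor_nonneg.2 (by linarith)
      have h8 : ⌊-x⌋ ≤ ⌊x⌋ := Int.floor_le_floor (by linarith)
      linarith
    have h9 : (((⌊x⌋ + 1 - ⌊-x⌋).toNat : ℤ) : ℝ) = ((⌊x⌋ + 1 - ⌊-x⌋ : ℤ) : ℝ) := by
      rw [Int.toNat_of_nonneg h6]
    have h10 : (((⌊x⌋ + 1 - ⌊-x⌋).toNat : ℕ) : ℝ) = ((⌊x⌋ + 1 - ⌊-x⌋ : ℤ) : ℝ) := by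
      rw [← h9]; norm_cast
    rw [h10]
    push_cast
    have h11 := Int.floor_le x
    have h12 := Int.sub_one_lt_floor (-x)
    linarith
  have h13 : (T.card : ℝ) ≤ ((Finset.Icc (⌊-x⌋) (⌊x⌋)).card : ℝ) := by exact_mod_cast hcard
  linarith

/-- number of the solutions of `p' x - p y = w` in a dyadic box -/
lemma rep (p p' a a' : ℕ) (w : ℤ) (hp : 1 ≤ p) (hco : Nat.Coprime p p') (hpa : p ≤ 2 ^ a) :
    ((Finset.Ico (2 ^ a) (2 ^ (a + 1)) ×ˢ Finset.Ico (2 ^ a') (2 ^ (a' + 1))).filter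
      fun q : ℕ × ℕ => (p' : ℤ) * q.1 - p * q.2 = w).card * p ≤ 3 * 2 ^ a := by
  classical
  set S := ((Finset.Ico (2 ^ a) (2 ^ (a + 1)) ×ˢ Finset.Ico (2 ^ a') (2 ^ (a' + 1))).filter
      fun q : ℕ × ℕ => (p' : ℤ) * q.1 - p * q.2 = w) with hS
  have hcard : S.card ≤ (Finset.Icc (2 ^ a / p) (2 ^ (a + 1) / p)).card := by
    refine Finset.card_le_card_of_injOn (fun q => q.1 / p) ?_ ?_
    · intro q hq
      have hq' : q ∈ S := by simpa using hq
      rw [hS, Finset.mem_filter, Finset.mem_product, Finset.mem_Ico] at hq'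
      obtain ⟨⟨⟨h1, h2⟩, _⟩, _⟩ := hq'
      simp only [Finset.coe_Icc, Set.mem_Icc]
      exact ⟨Nat.div_le_div_right h1, Nat.div_le_div_right h2.le⟩
    · intro q hq r hr he
      have hq' : q ∈ S := by simpa using hq
      have hr' : r ∈ S := by simpa using hr
      rw [hS, Finset.mem_filter] at hq' hr'
      have e1 := hq'.2
      have e2 := hr'.2
      have e3 : (p' : ℤ) * ((q.1 : ℤ) - r.1) = p * ((q.2 : ℤ) - r.2) := by linarith
      have hdv : (p : ℤ) ∣ (q.1 : ℤ) - r.1 := by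
        have h1 : (p : ℤ) ∣ (p' : ℤ) * ((q.1 : ℤ) - r.1) := ⟨_, e3⟩
        exact (Nat.isCoprime_iff_coprime.2 hco).dvd_of_dvd_mul_left h1
      have hmod : q.1 % p = r.1 % p := by
        have h2 : (r.1 : ℤ) ≡ q.1 [ZMOD p] := (Int.modEq_iff_dvd).2 hdv
        have h3 := (Int.natCast_modEq_iff.1 h2)
        exact h3.symm
      have he' : q.1 / p = r.1 / p := he
      have e4 : q.1 = r.1 := by
        rw [← Nat.div_add_mod q.1 p, ← Nat.div_add_mod r.1 p, he', hmod]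
      have e5 : q.2 = r.2 := by
        rw [e4] at e3
        have hp0 : (p : ℤ) ≠ 0 := by
          have : p ≠ 0 := by omega
          exact_mod_cast this
        have h6 : (p : ℤ) * ((q.2 : ℤ) - r.2) = 0 := by rw [← e3]; ring
        have h7 := (mul_eq_zero.1 h6).resolve_left hp0
        have h8 : (q.2 : ℤ) = r.2 := by linarith
        exact_mod_cast h8
      exact Prod.ext e4 e5
  rw [Nat.card_Icc] at hcard
  have h1 : (2 ^ (a + 1) / p + 1 - 2 ^ a / p) * p ≤ 3 * 2 ^ a := by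
    have hA : 2 ^ (a + 1) / p * p ≤ 2 ^ (a + 1) := Nat.div_mul_le_self _ _
    have hB : 2 ^ a < (2 ^ a / p + 1) * p := by
      have h1 := Nat.div_add_mod (2 ^ a) p
      have h2 := Nat.mod_lt (2 ^ a) (by omega : 0 < p)
      have h3 : (2 ^ a / p + 1) * p = p * (2 ^ a / p) + p := by ring
      omega
    rw [Nat.sub_mul]
    have hC : 2 ^ (a + 1) = 2 * 2 ^ a := by ring
    have hD : (2 ^ a / p + 1) * p = 2 ^ a / p * p + p := by ring
    have hE : (2 ^ (a + 1) / p + 1) * p = 2 ^ (a + 1) / p * p + p := by ring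
    omega
  exact (Nat.mul_le_mul_right p hcard).trans h1

/-- the same for the other coordinate -/
lemma rep' (p p' a a' : ℕ) (w : ℤ) (hp' : 1 ≤ p') (hco : Nat.Coprime p p') (hpa : p' ≤ 2 ^ a') :
    ((Finset.Ico (2 ^ a) (2 ^ (a + 1)) ×ˢ Finset.Ico (2 ^ a') (2 ^ (a' + 1))).filter
      fun q : ℕ × ℕ => (p' : ℤ) * q.1 - p * q.2 = w).card * p' ≤ 3 * 2 ^ a' := by
  classical
  have h := rep p' p a' a (-w) hp' hco.symm hpa
  refine (Nat.mul_le_mul_right p' ?_).trans h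
  refine Finset.card_le_card_of_injOn Prod.swap ?_ Prod.swap_injective.injOn
  intro q hq
  simp only [Finset.coe_filter, Finset.mem_product, Finset.mem_Ico, Set.mem_ofPred_eq] at hq ⊢
  refine ⟨⟨hq.1.2, hq.1.1⟩, ?_⟩
  have h1 := hq.2
  simp only [Prod.swap]
  show (p : ℤ) * (q.2 : ℤ) - p' * (q.1 : ℤ) = -w
  linarith

/-- the pair count in one coordinate, against the range of `w` -/
lemma repY (p p' a a' : ℕ) (w : ℤ) (hp : 1 ≤ p) (hp' : 1 ≤ p') (hco : Nat.Coprime p p')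
    (hpa : p ≤ 2 ^ a) (hpa' : p' ≤ 2 ^ a') :
    ((Finset.Ico (2 ^ a) (2 ^ (a + 1)) ×ˢ Finset.Ico (2 ^ a') (2 ^ (a' + 1))).filter
      fun q : ℕ × ℕ => (p' : ℤ) * q.1 - p * q.2 = w).card * (2 * max (p' * 2 ^ a) (p * 2 ^ a')) ≤
      6 * 2 ^ (a + a') := by
  have h1 := rep p p' a a' w hp hco hpa
  have h2 := rep' p p' a a' w hp' hco hpa'
  set K := ((Finset.Ico (2 ^ a) (2 ^ (a + 1)) ×ˢ Finset.Ico (2 ^ a') (2 ^ (a' + 1))).filter
      fun q : ℕ × ℕ => (p' : ℤ) * q.1 - p * q.2 = w).card with hK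
  rcases le_total (p' * 2 ^ a) (p * 2 ^ a') with h | h
  · rw [max_eq_right h]
    calc K * (2 * (p * 2 ^ a')) = 2 * (K * p) * 2 ^ a' := by ring
      _ ≤ 2 * (3 * 2 ^ a) * 2 ^ a' := by gcongr
      _ = 6 * 2 ^ (a + a') := by rw [pow_add]; ring
  · rw [max_eq_left h]
    calc K * (2 * (p' * 2 ^ a)) = 2 * (K * p') * 2 ^ a := by ring
      _ ≤ 2 * (3 * 2 ^ a') * 2 ^ a := by gcongr
      _ = 6 * 2 ^ (a + a') := by rw [pow_add]; ring

lemma nn_sub_le (x y : ℝ) : nn (x - y) ≤ |(x - round x) - (y - round y)| := by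
  unfold nn
  have h := round_le (x - y) (round x - round y)
  have e : x - y - ((round x - round y : ℤ) : ℝ) = (x - round x) - (y - round y) := by
    push_cast; ring
  rw [e] at h
  exact h

lemma dotp_sub {d : ℕ} (α : Fin d → ℝ) (m n : Fin d → ℤ) :
    dotp α (m - n) = dotp α m - dotp α n := by
  unfold dotp
  rw [← Finset.sum_sub_distrib]
  refine Finset.sum_congr rfl fun i _ => ?_
  simp only [Pi.sub_apply]
  push_cast
  ring

/-- lower bound for the linear form on a box -/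
lemma low {d : ℕ} (hd : 1 ≤ d) (α : Fin d → ℝ) (c0 : ℝ) (h : NA α c0) (R : ℕ) (hR : 1 ≤ R)
    (Y : Fin d → ℕ) (hY2 : ∀ i, 2 ≤ Y i) (hY : ∀ i, Y i ≤ 2 ^ (6 * R + 1)) (v : Fin d → ℤ)
    (hv0 : v ≠ 0) (hv : ∀ i, |v i| ≤ Y i) :
    c0 / ((∏ i, (Y i : ℝ)) * (8 * d * R) ^ (d + 1)) ≤ nn (dotp α v) := by
  obtain ⟨hc0, hna⟩ := h
  refine le_trans ?_ (hna v hv0)
  have hH1 : Hm v ≤ ∏ i, (Y i : ℝ) := by
    unfold Hm
    refine Finset.prod_le_prod (fun i _ => by positivity) fun i _ => ?_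
    refine max_le ?_ (by exact_mod_cast hY2 i)
    have := hv i
    exact_mod_cast this
  have hH0 : (2 : ℝ) ^ d ≤ Hm v := by
    unfold Hm
    have h1 : ∏ _i : Fin d, (2 : ℝ) ≤ ∏ i : Fin d, max |(v i : ℝ)| 2 :=
      Finset.prod_le_prod (fun i _ => by positivity) fun i _ => le_max_right _ _
    simpa using h1
  have hHpos : 0 < Hm v := lt_of_lt_of_le (by positivity) hH0
  have h1H : (1 : ℝ) ≤ Hm v := le_trans (one_le_pow₀ (by norm_num)) hH0
  have hlogpos : 0 < Real.log (2 * Hm v) := Real.log_pos (by linarith)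
  have hprod : (∏ i, (Y i : ℝ)) ≤ 2 ^ ((6 * R + 1) * d) := by
    have h1 : ∏ i, (Y i : ℝ) ≤ ∏ _i : Fin d, (2 : ℝ) ^ (6 * R + 1) :=
      Finset.prod_le_prod (fun i _ => by positivity) fun i _ => by exact_mod_cast hY i
    refine h1.trans ?_
    rw [Finset.prod_const, Finset.card_univ, Fintype.card_fin, ← pow_mul]
  have hlog : Real.log (2 * Hm v) ≤ 8 * d * R := by
    have h2 : 2 * Hm v ≤ 2 ^ (8 * d * R) := by
      calc 2 * Hm v ≤ 2 * 2 ^ ((6 * R + 1) * d) := by linarith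
        _ = (2 : ℝ) ^ ((6 * R + 1) * d + 1) := by rw [pow_succ]; ring
        _ ≤ (2 : ℝ) ^ (8 * d * R) := by
          apply pow_le_pow_right₀ (by norm_num)
          nlinarith [Nat.mul_le_mul hd hR, Nat.mul_le_mul_left d hR]
    have h3 : Real.log (2 * Hm v) ≤ Real.log (2 ^ (8 * d * R)) :=
      Real.log_le_log (by linarith) h2
    rw [Real.log_pow] at h3
    have h4 : Real.log 2 ≤ 1 := by
      have := Real.log_two_lt_d9
      linarith
    have h5 : ((8 * d * R : ℕ) : ℝ) * Real.log 2 ≤ ((8 * d * R : ℕ) : ℝ) * 1 :=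
      mul_le_mul_of_nonneg_left h4 (by positivity)
    push_cast at h3 h5
    linarith
  apply div_le_div_of_nonneg_left hc0.le (by positivity)
  exact mul_le_mul hH1 (pow_le_pow_left₀ hlogpos.le hlog _) (by positivity)
    (hHpos.le.trans hH1)

open Classical in
/-- fibre of `(m, m') ↦ p' m - p m'` -/
lemma fib {d : ℕ} (p p' : ℕ) (a a' : Fin d → ℕ) (w : Fin d → ℤ) (hp : 1 ≤ p) (hp' : 1 ≤ p')
    (hco : Nat.Coprime p p') (hpa : ∀ i, p ≤ 2 ^ a i) (hpa' : ∀ i, p' ≤ 2 ^ a' i) :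
    ((bx a ×ˢ bx a').filter fun q => ww p p' q.1 q.2 = w).card *
      (∏ i, (2 * max (p' * 2 ^ a i) (p * 2 ^ a' i))) ≤ 6 ^ d * 2 ^ (∑ i, a i + ∑ i, a' i) := by
  set S : Fin d → Finset (ℕ × ℕ) := fun i =>
    ((Finset.Ico (2 ^ a i) (2 ^ (a i + 1)) ×ˢ Finset.Ico (2 ^ a' i) (2 ^ (a' i + 1))).filter
      fun q : ℕ × ℕ => (p' : ℤ) * q.1 - p * q.2 = w i) with hS
  have h1 : ((bx a ×ˢ bx a').filter fun q => ww p p' q.1 q.2 = w).card ≤ ∏ i, (S i).card := by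
    rw [← Fintype.card_piFinset]
    refine Finset.card_le_card_of_injOn (fun q i => (q.1 i, q.2 i)) ?_ ?_
    · intro q hq
      simp only [Finset.coe_filter, Finset.mem_product, Set.mem_ofPred_eq, bx,
        Fintype.mem_piFinset] at hq
      simp only [Finset.mem_coe, Fintype.mem_piFinset, hS, Finset.mem_filter, Finset.mem_product]
      intro i
      refine ⟨⟨hq.1.1 i, hq.1.2 i⟩, ?_⟩
      exact congrFun hq.2 i
    · intro q _ r _ he
      refine Prod.ext ?_ ?_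
      · funext i
        exact congrArg Prod.fst (congrFun he i)
      · funext i
        exact congrArg Prod.snd (congrFun he i)
  calc ((bx a ×ˢ bx a').filter fun q => ww p p' q.1 q.2 = w).card *
        (∏ i, (2 * max (p' * 2 ^ a i) (p * 2 ^ a' i)))
      ≤ (∏ i, (S i).card) * (∏ i, (2 * max (p' * 2 ^ a i) (p * 2 ^ a' i))) :=
        Nat.mul_le_mul_right _ h1
    _ = ∏ i, ((S i).card * (2 * max (p' * 2 ^ a i) (p * 2 ^ a' i))) :=
        (Finset.prod_mul_distrib).symm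
    _ ≤ ∏ i, (6 * 2 ^ (a i + a' i)) := by
        refine Finset.prod_le_prod' fun i _ => ?_
        exact repY p p' (a i) (a' i) (w i) hp hp' hco (hpa i) (hpa' i)
    _ = 6 ^ d * 2 ^ (∑ i, a i + ∑ i, a' i) := by
        rw [Finset.prod_mul_distrib, Finset.prod_const, Finset.card_univ, Fintype.card_fin,
          Finset.prod_pow_eq_pow_sum, Finset.sum_add_distrib]

theorem main : S_BADC := by
  classical
  intro d α c0 hd hna
  have hc0 := hna.1
  have hd0 : (0 : ℝ) < d := by exact_mod_cast hd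
  refine ⟨4 * 6 ^ d * (8 * d) ^ (d + 1) / c0, by positivity, ?_⟩
  intro R hR a a' p p' ρ ha ha' hp hp' hp2 hp2' hco hρ
  have hR0 : (0 : ℝ) < R := by exact_mod_cast hR
  set Y : Fin d → ℕ := fun i => 2 * max (p' * 2 ^ a i) (p * 2 ^ a' i) with hYdef
  have hYpos : ∀ i, 2 ≤ Y i := by
    intro i
    have h1 : 1 ≤ p' * 2 ^ a i := Nat.mul_pos hp' (by positivity)
    have h2 : 1 ≤ max (p' * 2 ^ a i) (p * 2 ^ a' i) := h1.trans (le_max_left _ _)
    show 2 ≤ 2 * max (p' * 2 ^ a i) (p * 2 ^ a' i)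
    omega
  have hYle : ∀ i, Y i ≤ 2 ^ (6 * R + 1) := by
    intro i
    have e : (2 : ℕ) ^ (6 * R + 1) = 2 * (2 ^ (2 * R) * 2 ^ (4 * R)) := by
      rw [← pow_add, pow_succ, mul_comm]; congr 2; ring
    have h1 : 2 ^ a i ≤ 2 ^ (4 * R) := Nat.pow_le_pow_right (by norm_num) (ha i).2.le
    have h2 : 2 ^ a' i ≤ 2 ^ (4 * R) := Nat.pow_le_pow_right (by norm_num) (ha' i).2.le
    rw [e]
    show 2 * max (p' * 2 ^ a i) (p * 2 ^ a' i) ≤ _
    refine Nat.mul_le_mul_left 2 (max_le ?_ ?_)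
    · exact Nat.mul_le_mul hp2'.le h1
    · exact Nat.mul_le_mul hp2.le h2
  have hprodpos : (0 : ℝ) < ∏ i, (Y i : ℝ) := by
    refine Finset.prod_pos fun i _ => ?_
    have := hYpos i
    have h2 : 0 < Y i := by omega
    exact_mod_cast h2
  set ρ1 : ℝ := c0 / ((∏ i, (Y i : ℝ)) * (8 * d * R) ^ (d + 1)) with hρ1
  have hρ1pos : 0 < ρ1 := by positivity
  have hlow := low hd α c0 hna R hR Y hYpos hYle
  set F := ((bx a ×ˢ bx a').filter fun q => ww p p' q.1 q.2 ≠ 0 ∧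
    nn (dotp α (ww p p' q.1 q.2)) < ρ) with hF
  have hcnt : cnt α p p' a a' ρ = F.card := by
    unfold cnt
    rw [hF]
  set W := F.image (fun q => ww p p' q.1 q.2) with hW
  -- sizes
  have hmem : ∀ q ∈ F, ∀ i, (2 ^ a i ≤ q.1 i ∧ q.1 i < 2 ^ (a i + 1)) ∧
      (2 ^ a' i ≤ q.2 i ∧ q.2 i < 2 ^ (a' i + 1)) := by
    intro q hq i
    rw [hF, Finset.mem_filter, Finset.mem_product, bx, bx, Fintype.mem_piFinset,
      Fintype.mem_piFinset] at hq
    have h1 := hq.1.1 i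
    have h2 := hq.1.2 i
    rw [Finset.mem_Ico] at h1 h2
    exact ⟨h1, h2⟩
  have hYcast : ∀ i, ((Y i : ℕ) : ℤ) = 2 * max ((p' : ℤ) * 2 ^ a i) ((p : ℤ) * 2 ^ a' i) := by
    intro i
    show (((2 * max (p' * 2 ^ a i) (p * 2 ^ a' i) : ℕ)) : ℤ) = _
    push_cast
    rfl
  have hsize : ∀ q ∈ F, ∀ i, |ww p p' q.1 q.2 i| ≤ Y i := by
    intro q hq i
    obtain ⟨⟨h1, h2⟩, h3, h4⟩ := hmem q hq i
    rw [hYcast i]
    have e1 : (p' : ℤ) * 2 ^ a i ≤ max ((p' : ℤ) * 2 ^ a i) ((p : ℤ) * 2 ^ a' i) := le_max_left _ _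
    have e2 : (p : ℤ) * 2 ^ a' i ≤ max ((p' : ℤ) * 2 ^ a i) ((p : ℤ) * 2 ^ a' i) :=
      le_max_right _ _
    have h2' : ((q.1 i : ℕ) : ℤ) ≤ 2 * 2 ^ a i := by
      have : (q.1 i) ≤ 2 * 2 ^ a i := by rw [pow_succ] at h2; omega
      exact_mod_cast this
    have h4' : ((q.2 i : ℕ) : ℤ) ≤ 2 * 2 ^ a' i := by
      have : (q.2 i) ≤ 2 * 2 ^ a' i := by rw [pow_succ] at h4; omega
      exact_mod_cast this
    have g1 : (p' : ℤ) * (q.1 i : ℕ) ≤ (p' : ℤ) * (2 * 2 ^ a i) :=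
      mul_le_mul_of_nonneg_left h2' (by positivity)
    have g2 : (p : ℤ) * (q.2 i : ℕ) ≤ (p : ℤ) * (2 * 2 ^ a' i) :=
      mul_le_mul_of_nonneg_left h4' (by positivity)
    have g3 : (0 : ℤ) ≤ (p' : ℤ) * (q.1 i : ℕ) := by positivity
    have g4 : (0 : ℤ) ≤ (p : ℤ) * (q.2 i : ℕ) := by positivity
    unfold ww
    rw [abs_le]
    constructor <;> linarith
  have hdiff : ∀ q ∈ F, ∀ r ∈ F, ∀ i, |(ww p p' q.1 q.2 - ww p p' r.1 r.2) i| ≤ Y i := by
    intro q hq r hr i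
    obtain ⟨⟨h1, h2⟩, h3, h4⟩ := hmem q hq i
    obtain ⟨⟨k1, k2⟩, k3, k4⟩ := hmem r hr i
    rw [hYcast i]
    have e1 : (p' : ℤ) * 2 ^ a i ≤ max ((p' : ℤ) * 2 ^ a i) ((p : ℤ) * 2 ^ a' i) := le_max_left _ _
    have e2 : (p : ℤ) * 2 ^ a' i ≤ max ((p' : ℤ) * 2 ^ a i) ((p : ℤ) * 2 ^ a' i) :=
      le_max_right _ _
    have f1 : |((q.1 i : ℕ) : ℤ) - (r.1 i : ℕ)| ≤ 2 ^ a i := by
      rw [pow_succ] at h2 k2
      rw [abs_le]
      have z1 : ((2 ^ a i : ℕ) : ℤ) = 2 ^ a i := by push_cast; rfl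
      rw [← z1]
      constructor <;> omega
    have f2 : |((q.2 i : ℕ) : ℤ) - (r.2 i : ℕ)| ≤ 2 ^ a' i := by
      rw [pow_succ] at h4 k4
      rw [abs_le]
      have z1 : ((2 ^ a' i : ℕ) : ℤ) = 2 ^ a' i := by push_cast; rfl
      rw [← z1]
      constructor <;> omega
    have e3 : (ww p p' q.1 q.2 - ww p p' r.1 r.2) i =
        (p' : ℤ) * (((q.1 i : ℕ) : ℤ) - (r.1 i : ℕ)) - p * (((q.2 i : ℕ) : ℤ) - (r.2 i : ℕ)) := by
      simp only [Pi.sub_apply, ww]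
      ring
    rw [e3]
    refine (abs_sub _ _).trans ?_
    rw [abs_mul, abs_mul, Nat.abs_cast, Nat.abs_cast]
    have g1 : (p' : ℤ) * |((q.1 i : ℕ) : ℤ) - (r.1 i : ℕ)| ≤ (p' : ℤ) * 2 ^ a i :=
      mul_le_mul_of_nonneg_left f1 (by positivity)
    have g2 : (p : ℤ) * |((q.2 i : ℕ) : ℤ) - (r.2 i : ℕ)| ≤ (p : ℤ) * 2 ^ a' i :=
      mul_le_mul_of_nonneg_left f2 (by positivity)
    linarith
  -- number of different `w`
  have hWcard : (W.card : ℝ) ≤ 4 * (ρ / ρ1) := by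
    rcases le_or_gt ρ ρ1 with hle | hgt
    · have hWe : W = ∅ := by
        rw [Finset.eq_empty_iff_forall_notMem]
        intro w hw
        rw [hW, Finset.mem_image] at hw
        obtain ⟨q, hq, rfl⟩ := hw
        have hq' := hq
        rw [hF, Finset.mem_filter] at hq'
        have := hlow (ww p p' q.1 q.2) hq'.2.1 (hsize q hq)
        linarith [hq'.2.2]
      rw [hWe]
      simp only [Finset.card_empty, Nat.cast_zero]
      positivity
    · refine sep W (fun w => dotp α w - round (dotp α w)) ρ ρ1 hρ1pos hgt.le ?_ ?_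
      · intro w hw
        rw [hW, Finset.mem_image] at hw
        obtain ⟨q, hq, rfl⟩ := hw
        rw [hF, Finset.mem_filter] at hq
        exact hq.2.2
      · intro w hw w' hw' hne
        rw [hW, Finset.mem_image] at hw hw'
        obtain ⟨q, hq, rfl⟩ := hw
        obtain ⟨r, hr, rfl⟩ := hw'
        have h1 := hlow (ww p p' q.1 q.2 - ww p p' r.1 r.2) (sub_ne_zero.2 hne) (hdiff q hq r hr)
        rw [dotp_sub] at h1
        exact h1.trans (nn_sub_le _ _)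
  -- the fibres
  have hpa : ∀ i, p ≤ 2 ^ a i := fun i => hp2.le.trans
    (Nat.pow_le_pow_right (by norm_num) (by have := (ha i).1; omega))
  have hpa' : ∀ i, p' ≤ 2 ^ a' i := fun i => hp2'.le.trans
    (Nat.pow_le_pow_right (by norm_num) (by have := (ha' i).1; omega))
  have hmul : F.card * (∏ i, Y i) ≤ W.card * (6 ^ d * 2 ^ (∑ i, a i + ∑ i, a' i)) := by
    rw [Finset.card_eq_sum_card_image (fun q => ww p p' q.1 q.2) F, Finset.sum_mul]
    refine (Finset.sum_le_card_nsmul _ _ (6 ^ d * 2 ^ (∑ i, a i + ∑ i, a' i)) ?_).trans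
      (le_of_eq (by rw [smul_eq_mul]))
    intro w _
    refine le_trans (Nat.mul_le_mul_right _ (Finset.card_le_card ?_))
      (fib p p' a a' w hp hp' hco hpa hpa')
    intro q hq
    rw [Finset.mem_filter, hF, Finset.mem_filter] at hq
    rw [Finset.mem_filter]
    exact ⟨hq.1.1, hq.2⟩
  have hmulR : (F.card : ℝ) * (∏ i, (Y i : ℝ)) ≤
      (W.card : ℝ) * (6 ^ d * 2 ^ (∑ i, a i + ∑ i, a' i)) := by
    exact_mod_cast hmul
  rw [hcnt]
  have h1 : (F.card : ℝ) * (∏ i, (Y i : ℝ)) ≤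
      4 * (ρ / ρ1) * (6 ^ d * 2 ^ (∑ i, a i + ∑ i, a' i)) :=
    hmulR.trans (mul_le_mul_of_nonneg_right hWcard (by positivity))
  have h2 : 4 * (ρ / ρ1) * (6 ^ d * 2 ^ (∑ i, a i + ∑ i, a' i)) =
      (4 * 6 ^ d * (8 * d) ^ (d + 1) / c0 * (R : ℝ) ^ (d + 1) * ρ *
        2 ^ (∑ i, a i + ∑ i, a' i)) * (∏ i, (Y i : ℝ)) := by
    rw [hρ1]
    have e : (8 * (d : ℝ) * R) ^ (d + 1) = (8 * (d : ℝ)) ^ (d + 1) * (R : ℝ) ^ (d + 1) :=
      mul_pow _ _ _
    rw [e]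
    field_simp
  rw [h2] at h1
  exact le_of_mul_le_mul_right h1 hprodpos

end Pool.Agent.W400.DM.Badc

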